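import Mathlib

set_option autoImplicit false

namespace Pool.Agent.Results.MP_5c5fd6_lc.Below
open MeasureTheory Set
open scoped ENNReal

/-- start point of leg `i`: `0`, then the turning points `(-1)^i x_i` -/
def pt (x : ℕ → ℝ) : ℕ → ℝ
  | 0 => 0
  | i + 1 => (-1) ^ i * x i

/-- start time of leg `i`: distance travelled plus `d` for each completed turn -/
def tm (d : ℝ) (x : ℕ → ℝ) : ℕ → ℝ
  | 0 => 0
  | i + 1 => tm d x i + |pt x (i + 1) - pt x i| + d

/-- first time at which the searcher is at `H` (infinite if never) -/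
noncomputable def cost (d : ℝ) (x : ℕ → ℝ) (H : ℝ) : ℝ≥0∞ :=
  ⨅ (i : ℕ) (_ : H ∈ uIcc (pt x i) (pt x (i + 1))), ENNReal.ofReal (tm d x i + |H - pt x i|)

noncomputable def Vbar (d : ℝ) : ℝ≥0∞ :=
  ⨅ (x : ℕ → ℝ) (_ : ∀ i, 0 < x i), ⨆ (h : Measure ℝ) (_ : IsProbabilityMeasure h)
    (_ : ∫⁻ H, ENNReal.ofReal |H| ∂h ≤ 1), ∫⁻ H, cost d x H ∂h

noncomputable def xs (d r : ℝ) (i : ℕ) : ℝ := (r ^ (i + 1) - 1) * d / 2

section
variable {d r : ℝ} (hd : 0 < d) (hr : 1 < r)
include hd hr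

lemma xs_pos (i : ℕ) : 0 < xs d r i := by
  have : 1 < r ^ (i + 1) := one_lt_pow₀ hr (by omega)
  unfold xs
  have : 0 < r ^ (i + 1) - 1 := by linarith
  positivity

lemma tm_eq (i : ℕ) :
    (r - 1) * (tm d (xs d r) (i + 1) + xs d r i) = d * r * (r ^ (i + 1) - 1) := by
  induction i with
  | zero =>
    have := xs_pos hd hr 0
    simp only [tm, pt, pow_zero, one_mul, sub_zero, zero_add, abs_of_pos this]
    unfold xs; ring
  | succ i ih =>
    have h1 := xs_pos hd hr i
    have h2 := xs_pos hd hr (i + 1)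
    have e : |pt (xs d r) (i + 1 + 1) - pt (xs d r) (i + 1)| = xs d r (i + 1) + xs d r i := by
      have : pt (xs d r) (i + 1 + 1) - pt (xs d r) (i + 1) =
          (-1) ^ (i + 1) * (xs d r (i + 1) + xs d r i) := by
        simp only [pt]; ring
      rw [this, abs_mul, abs_pow, abs_neg, abs_one, one_pow, one_mul, abs_of_pos (by linarith)]
    rw [tm, e]
    have e2 : xs d r (i + 1) = (r ^ (i + 1 + 1) - 1) * d / 2 := rfl
    rw [e2]
    linear_combination ih

lemma exists_idx (y : ℝ) (s : ℕ) :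
    ∃ k, y ≤ xs d r (2 * k + s) ∧ ∀ j, k = j + 1 → xs d r (2 * j + s) < y := by
  have hex : ∃ k, y ≤ xs d r (2 * k + s) := by
    obtain ⟨k, hk⟩ := pow_unbounded_of_one_lt (2 * y / d + 1) hr
    refine ⟨k, ?_⟩
    have h1 : r ^ k ≤ r ^ (2 * k + s + 1) := pow_le_pow_right₀ hr.le (by omega)
    have h2 : 2 * y / d * d = 2 * y := by field_simp
    unfold xs
    nlinarith
  classical
  refine ⟨Nat.find hex, Nat.find_spec hex, fun j hj => ?_⟩
  exact not_le.1 (Nat.find_min hex (by omega))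

lemma key (i : ℕ) (y : ℝ) (hy : xs d r i ≤ y) :
    tm d (xs d r) (i + 1 + 1) + xs d r (i + 1) ≤ 2 * r ^ 2 / (r - 1) * y + r * d := by
  have h0 : 0 < r - 1 := by linarith
  have h1 := tm_eq hd hr (i + 1)
  have h2 : 2 * r ^ 2 / (r - 1) * xs d r i ≤ 2 * r ^ 2 / (r - 1) * y :=
    mul_le_mul_of_nonneg_left hy (by positivity)
  have h3 : tm d (xs d r) (i + 1 + 1) + xs d r (i + 1) =
      2 * r ^ 2 / (r - 1) * xs d r i + r * d := by
    apply mul_left_cancel₀ h0.ne'
    rw [h1]
    unfold xs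
    field_simp
    ring
  linarith

lemma cost_le (H : ℝ) :
    cost d (xs d r) H ≤ ENNReal.ofReal ((1 + 2 * r ^ 2 / (r - 1)) * |H| + r * d) := by
  have h0 : 0 < r - 1 := by linarith
  have hc : 0 ≤ 2 * r ^ 2 / (r - 1) * |H| := by positivity
  have hrd : 0 < r * d := by positivity
  rcases le_total 0 H with hH | hH
  · obtain ⟨k, hk, hk'⟩ := exists_idx hd hr H 0
    rcases k with _ | j
    · refine iInf₂_le_of_le 0 ?_ (ENNReal.ofReal_le_ofReal ?_)
      · exact mem_uIcc_of_le (by simpa [pt] using hH) (by simpa [pt] using hk)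
      · simp only [tm, pt, sub_zero, zero_add]
        linarith
    · have h1 := hk' j rfl
      have hp := xs_pos hd hr (2 * j + 1)
      have p1 : pt (xs d r) (2 * j + 1 + 1) = - xs d r (2 * j + 1) := by
        simp only [pt]; rw [pow_succ, pow_mul]; simp
      have p2 : pt (xs d r) (2 * j + 1 + 1 + 1) = xs d r (2 * j + 1 + 1) := by
        simp only [pt]; rw [pow_succ, pow_succ, pow_mul]; simp
      refine iInf₂_le_of_le (2 * j + 1 + 1) ?_ (ENNReal.ofReal_le_ofReal ?_)
      · rw [p1, p2]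
        exact mem_uIcc_of_le (by linarith) hk
      · have := key hd hr (2 * j) H h1.le
        rw [p1, abs_of_nonneg (by linarith), abs_of_nonneg hH]
        linarith
  · obtain ⟨k, hk, hk'⟩ := exists_idx hd hr (-H) 1
    have hp := xs_pos hd hr (2 * k)
    have p1 : pt (xs d r) (2 * k + 1) = xs d r (2 * k) := by
      simp only [pt]; rw [pow_mul]; simp
    have p2 : pt (xs d r) (2 * k + 1 + 1) = - xs d r (2 * k + 1) := by
      simp only [pt]; rw [pow_succ, pow_mul]; simp
    refine iInf₂_le_of_le (2 * k + 1) ?_ (ENNReal.ofReal_le_ofReal ?_)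
    · rw [p1, p2]
      exact mem_uIcc_of_ge (by linarith) (by linarith)
    · rw [p1, abs_of_nonpos (by linarith), abs_of_nonpos hH]
      rw [abs_of_nonpos hH] at hc
      rcases k with _ | j
      · have h1 := tm_eq hd hr 0
        have h2 : tm d (xs d r) (0 + 1) + xs d r 0 = r * d := by
          apply mul_left_cancel₀ h0.ne'
          rw [h1]; ring
        have h3 : tm d (xs d r) (2 * 0 + 1) + xs d r (2 * 0) = r * d := h2
        rw [add_mul, one_mul]
        linarith
      · have := key hd hr (2 * j + 1) (-H) (hk' j rfl).le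
        have e : 2 * (j + 1) = 2 * j + 1 + 1 := by ring
        rw [e]
        linarith

lemma Vbar_le : Vbar d ≤ ENNReal.ofReal (1 + 2 * r ^ 2 / (r - 1) + r * d) := by
  have h0 : 0 < r - 1 := by linarith
  have hc : 0 ≤ 1 + 2 * r ^ 2 / (r - 1) := by positivity
  have hrd : 0 ≤ r * d := by positivity
  refine iInf₂_le_of_le (xs d r) (xs_pos hd hr) (iSup_le fun h => iSup_le fun hp =>
    iSup_le fun hm => ?_)
  calc ∫⁻ H, cost d (xs d r) H ∂h
      ≤ ∫⁻ H, (ENNReal.ofReal (1 + 2 * r ^ 2 / (r - 1)) * ENNReal.ofReal |H| +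
          ENNReal.ofReal (r * d)) ∂h := by
        refine lintegral_mono fun H => (cost_le hd hr H).trans (le_of_eq ?_)
        rw [ENNReal.ofReal_add (by positivity) hrd, ENNReal.ofReal_mul hc]
    _ = ENNReal.ofReal (1 + 2 * r ^ 2 / (r - 1)) * ∫⁻ H, ENNReal.ofReal |H| ∂h +
          ENNReal.ofReal (r * d) := by
        rw [lintegral_add_right _ measurable_const, lintegral_const, measure_univ, mul_one,
          lintegral_const_mul' _ _ ENNReal.ofReal_ne_top]
    _ ≤ ENNReal.ofReal (1 + 2 * r ^ 2 / (r - 1)) * 1 + ENNReal.ofReal (r * d) := by gcongr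
    _ = _ := by rw [mul_one, ENNReal.ofReal_add hc hrd]

end

theorem result : ∀ d : ℝ, 0 < d → Vbar d < ENNReal.ofReal (9 + 2 * d) := by
  intro d hd
  obtain ⟨e, he0, he1, he2⟩ : ∃ e : ℝ, 0 < e ∧ e ≤ 1 / 2 ∧ e ≤ d / 8 :=
    ⟨min (1 / 2) (d / 8), lt_min (by norm_num) (by linarith), min_le_left _ _, min_le_right _ _⟩
  refine (Vbar_le hd (r := 2 - e) (by linarith)).trans_lt ?_
  rw [ENNReal.ofReal_lt_ofReal_iff (by linarith)]
  have h : 2 * (2 - e) ^ 2 / (2 - e - 1) < 8 + e * d := by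
    rw [div_lt_iff₀ (by linarith)]
    nlinarith [mul_pos he0 hd, mul_pos he0 he0]
  linarith

end Pool.Agent.Results.MP_5c5fd6_lc.Below
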